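import Mathlib
import Pool.Agent.TH278.DX.Exact
import Pool.Agent.TH28.LE.Lit2
import Pool.Agent.H770R2.Dix4

/-!
# Littlewood functions on exact groups which are isometrisable by subspaces or quotients of `L_p`

Let `Γ` be a group with property A such that every uniformly bounded representation of `Γ` on a
Hilbert space preserves an equivalent norm with which the space is isometric to a subspace of some
`L_p(μ)`, `1 ≤ p < ∞`, or an equivalent norm whose dual norm is of this kind. Then all Littlewood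
functions on `Γ` are summable.

Proof. Such a representation is unitarizable (starting file `H770R2/Dix4`), so `Γ` is unitarizable,
hence amenable by the solution of the Dixmier problem for groups with property A
(`TH278/DX/Exact`), and on amenable groups Littlewood functions are summable (`TH28/LE/Lit2`).
-/

set_option autoImplicit false

namespace Pool.Agent.Results.MP_040728_al.ExactSubspaceNorms

open MeasureTheory
open scoped ENNReal

/-- The operators in `A` preserve an equivalent norm `‖J x‖` of `H` with which `H` is isometric to a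
subspace of a complex space `L_p(μ)`, for some `1 ≤ p < ∞`. -/
def PreservesLpNorm {H : Type} [NormedAddCommGroup H] [InnerProductSpace ℂ H]
    (A : Set (H →L[ℂ] H)) : Prop :=
  ∃ (p : ℝ≥0∞) (_ : Fact (1 ≤ p)) (_ : p ≠ ∞) (Ω : Type) (_ : MeasurableSpace Ω) (μ : Measure Ω)
    (J : H →ₗ[ℂ] Lp ℂ p μ), (∃ c C : ℝ, 0 < c ∧ ∀ x, c * ‖x‖ ≤ ‖J x‖ ∧ ‖J x‖ ≤ C * ‖x‖) ∧
      ∀ T ∈ A, ∀ x, ‖J (T x)‖ = ‖J x‖

/-- Property A: for all finite `E ⊆ Γ`, `ε > 0` there are a finite `K ⊆ Γ` and unit vectors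
`ξ_v` of the real `ℓ²(Γ)`, `v ∈ Γ`, supported in `v K`, with `⟨ξ_v, ξ_{vg}⟩ ≥ 1 - ε` for all
`v ∈ Γ`, `g ∈ E`. -/
def PropertyA (Γ : Type) [Group Γ] : Prop :=
  ∀ (E : Finset Γ) (ε : ℝ), 0 < ε → ∃ (K : Finset Γ) (ξ : Γ → Γ → ℝ),
    (∀ v x, ξ v x ≠ 0 → v⁻¹ * x ∈ K) ∧
    (∀ v, ∑ k ∈ K, ξ v (v * k) ^ 2 = 1) ∧
    ∀ v, ∀ g ∈ E, 1 - ε ≤ ∑ k ∈ K, ξ v (v * k) * ξ (v * g) (v * k)

/-- `π` is uniformly bounded. -/
def UniformlyBounded {Γ H : Type} [Group Γ] [NormedAddCommGroup H] [InnerProductSpace ℂ H]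
    (π : Γ →* (H →L[ℂ] H)ˣ) : Prop :=
  ∃ C : ℝ, ∀ g : Γ, ‖((π g : (H →L[ℂ] H)ˣ) : H →L[ℂ] H)‖ ≤ C

/-- The set of the operators `π(g)`. -/
def ops {Γ H : Type} [Group Γ] [NormedAddCommGroup H] [InnerProductSpace ℂ H]
    (π : Γ →* (H →L[ℂ] H)ˣ) : Set (H →L[ℂ] H) :=
  Set.range fun g => ((π g : (H →L[ℂ] H)ˣ) : H →L[ℂ] H)

/-- The set of the operators `π(g)*`. -/
def adjOps {Γ H : Type} [Group Γ] [NormedAddCommGroup H] [InnerProductSpace ℂ H]
    [CompleteSpace H] (π : Γ →* (H →L[ℂ] H)ˣ) : Set (H →L[ℂ] H) :=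
  Set.range fun g => star ((π g : (H →L[ℂ] H)ˣ) : H →L[ℂ] H)

/-- Every uniformly bounded representation of `Γ` on a Hilbert space, or its adjoint operators,
preserve an equivalent norm of a subspace of some `L_p(μ)`. -/
def Isometrisable (Γ : Type) [Group Γ] : Prop :=
  ∀ (H : Type) [NormedAddCommGroup H] [InnerProductSpace ℂ H] [CompleteSpace H]
    (π : Γ →* (H →L[ℂ] H)ˣ), UniformlyBounded π →
      PreservesLpNorm (ops π) ∨ PreservesLpNorm (adjOps π)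

/-- Littlewood functions: `f(x⁻¹ y) = g₁(x, y) + g₂(x, y)` with bounded row sums of `|g₁|` and
bounded column sums of `|g₂|`. -/
def Littlewood {Γ : Type} [Group Γ] (f : Γ → ℂ) : Prop :=
  ∃ g₁ g₂ : Γ → Γ → ℂ,
    (∀ x y : Γ, f (x⁻¹ * y) = g₁ x y + g₂ x y) ∧
    (∃ C : ℝ, ∀ x : Γ, Summable (fun y => ‖g₁ x y‖) ∧ (∑' y, ‖g₁ x y‖) ≤ C) ∧
    (∃ C : ℝ, ∀ y : Γ, Summable (fun x => ‖g₂ x y‖) ∧ (∑' x, ‖g₂ x y‖) ≤ C)

theorem result :
    ∀ (Γ : Type) [Group Γ], PropertyA Γ → Isometrisable Γ →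
      ∀ f : Γ → ℂ, Littlewood f → ∀ q : ℝ≥0∞, 1 ≤ q → Memℓp f q := by
  intro Γ _ hA hiso f ⟨g₁, g₂, hf, ⟨C₁, h1⟩, C₂, h2⟩ q hq
  have hA' : Pool.Agent.TH278.DX.PropertyA Γ := hA
  have hU : ∀ (c : ℝ) (H : Type) [NormedAddCommGroup H] [InnerProductSpace ℂ H] [CompleteSpace H]
      (π : Γ →* (H →L[ℂ] H)ˣ), Pool.Agent.TH278.DX.Bdd π c →
        ∃ κ : ℝ, Pool.Agent.TH278.DX.Sim π κ := by
    intro c H _ _ _ π hπ
    have hun : Pool.H770R2.Dix.Unitarizable π := by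
      rcases hiso H π ⟨c, hπ⟩ with h | h
      · obtain ⟨p, hp1, hpt, Ω, inst, μ, J, ⟨a, b, ha, hJ⟩, hinv⟩ := h
        exact Pool.H770R2.Dix.unit_of_Lp π hpt J ha hJ (fun g x => hinv _ ⟨g, rfl⟩ x)
      · obtain ⟨p, hp1, hpt, Ω, inst, μ, J, ⟨a, b, ha, hJ⟩, hinv⟩ := h
        refine Pool.H770R2.Dix.unit_of_contra π
          (Pool.H770R2.Dix.unit_of_Lp (Pool.H770R2.Dix.contra π) hpt J ha hJ fun g x => ?_)
        exact hinv _ ⟨g⁻¹, rfl⟩ x
    obtain ⟨S, hS⟩ := hun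
    refine ⟨_, S, le_rfl, fun g => ?_⟩
    rw [Unitary.mem_iff]
    simpa using hS g
  have hG := Pool.Agent.TH278.DX.amenable_of_unitarizable hA' hU
  have hL : Pool.Agent.TH28.LE.Littlewood f := by
    refine ⟨g₁, g₂, max C₁ C₂, hf, fun x S => ?_, fun y S => ?_⟩
    · exact (((h1 x).1.sum_le_tsum S fun y _ => norm_nonneg _).trans (h1 x).2).trans
        (le_max_left _ _)
    · exact (((h2 y).1.sum_le_tsum S fun x _ => norm_nonneg _).trans (h2 y).2).trans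
        (le_max_right _ _)
  have hs := Pool.Agent.TH28.LE.summable_of_amenable hG hL
  have h1' : Memℓp f 1 := by
    apply memℓp_gen
    simpa using hs
  exact h1'.of_exponent_ge hq

end Pool.Agent.Results.MP_040728_al.ExactSubspaceNorms
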